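import Mathlib
import Pool.Agent.Q36.WW.Final

namespace Pool.Agent.Results.MP_0c03d4_ag.Realizable

open Q36.WW

/-- The weak combinatorial type `W` (four smooth conics and four lines) is realizable. -/
theorem result : ∃ f : Fin 8 → MvPolynomial (Fin 3) ℂ, HasTypeW f :=
  realizable

end Pool.Agent.Results.MP_0c03d4_ag.Realizable
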